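import Pool.Agent.Lib.MP_b5021c_nt.KO.H25.Ev1
import Pool.Agent.Lib.MP_b5021c_nt.KV.H96.Kvd
import Pool.Agent.Lib.MP_b5021c_nt.KV.H47.Ns
import Pool.Agent.Lib.MP_b5021c_nt.KV.H31.Ext
import Pool.Agent.Lib.MP_b5021c_nt.O4V.H40.Fr

/-!
# Board b5: rows of the chapters KV and O4V from closed statements
-/

namespace Pool.Agent.B5.KoH25

open Pool.Agent.B5
open Pool.Agent.B5.KE
open Pool.Agent.MP_b5021c_nt

/-- The rows used by helper96. -/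
theorem rws (h1 : F1S) (h2 : F2S) (h3 : F3S) (h4 : MxuS) (h5 : MnfS) (h6 : MpaS) (h7 : McoS)
    (h8 : Inj1S) (h9 : TopS) (h10 : RaySpanS) (h11 : E2S) (h12 : RnkS) : KV.Rws :=
  ⟨h1, h2, h3, h4, h5, h6, h7, h8, h9, h10, h11, h12⟩

/-- (KV_VDF) -/
theorem kvd (h1 : F1S) (h2 : F2S) (h3 : F3S) (h4 : MxuS) (h5 : MnfS) (h6 : MpaS) (h7 : McoS)
    (h8 : Inj1S) (h9 : TopS) (h10 : RaySpanS) (h11 : E2S) (h12 : RnkS) (hSf : SfzS) (hFD : FDS)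
    (hClp : ClpS) (hGlc : GlcS) (hNbr : NbrS) (hFou : FouS) (hKh : KvhS) (hKe : KveS) : KvdS :=
  KV.kvd (rws h1 h2 h3 h4 h5 h6 h7 h8 h9 h10 h11 h12) hSf hFD hClp hGlc hNbr hFou hKh hKe

/-- (O4_FR1) -/
theorem o4fr1 (h1 : F1S) (h2 : F2S) (h3 : F3S) (h4 : MxuS) (h5 : MnfS) (h6 : MpaS) (h7 : McoS)
    (h8 : Inj1S) (h9 : TopS) (h10 : RaySpanS) (h11 : E2S) (h12 : RnkS) (hInj2 : Inj2S)
    (hV : VcoS) (hRk : RkUSS) (hRk1 : RkS) (hL : LMNS)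
    (hOfa : OfaS) (hOfb : OfbS) (hO1 : Oo1S) (hB : BpS) (hAf : O4afS) : O4fr1S :=
  O4V.o4fr1 (rws h1 h2 h3 h4 h5 h6 h7 h8 h9 h10 h11 h12) hInj2 hV h11 h1 h2 h3 h8 hRk hRk1 hL h7
    h12 hOfa hOfb hO1 hB hAf

/-- (KV_EXT) -/
theorem kvx (hEvz : EvzS) (hEvr : EvrS) (hFcl : FclS) (hMm : MmulS) (hE1 : E1S) (hMV : MVS)
    (hR : ResWDS) (hRS : ResStS) : KvxS :=
  KV31.kvx hEvz (ev1 hEvr) hFcl hMm hE1 hMV hR hRS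

/-- (KV_NS) -/
theorem kvn (hSm : SmallS) (hQst : QstS) (hQp : Qp3S) (hKe : KerEvS) (hMm : MmulS) (hMV : MVS)
    (hE1 : E1S) (hDb : Db3S) (hNn : Nn3S) (hHp : Hp3S)
    (hGen : GenS) (hE : SlEvalS) (hEv : EvRS) (hSh : SharpS) (hDe : DensS) (hZ : ZfinS)
    (hU : UnitAS) (hFace : FaceS) (hSt : StSpecS) (hMu : MultiS) (hE2 : E2S) (hP : PrimS)
    (hB3 : B3S) (hFull : FullS) (hNd : Nd3vS) (hNr : Nr3S) (hfat : FatS) (hG : H67.E3vgS)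
    (hT : H67.TrvoS) (hG1 : G1pS) (hEvz : EvzS) (hEvr : EvrS) (hFcl : FclS)
    (hR : ResWDS) (hRS : ResStS) : KvnS :=
  KV.H47.kvn hSm hQst hQp hKe hMm hMV hE1 hDb hNn hHp hGen hE hEv hSh hDe hZ hU hFace hSt hMu hE2
    hP hB3 hFull hNd hNr hfat hG hT hG1 hEvz (ev1 hEvr) hFcl hR hRS

end Pool.Agent.B5.KoH25
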