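import Pool.Agent.Lib.MP_b5021c_nt.KO.H67.O2
import Pool.Agent.Lib.MP_b5021c_nt.E.H57.Evz

/-!
# Board b5: class `V(1)` over the integers; row KO_O2 from closed statements
-/

namespace Pool.Agent.B5.KoH25

open Pool.Agent.B5
open Pool.Agent.MP_b5021c_nt

/-- Class `V(1)` over the integers: rank at most one. -/
theorem ev1 (h : EvrS) : BdV ℤ 1 1 := H25.Bch.bdV_bc le_rfl h.1

/-- Row KO_O2 from closed statements. -/
theorem ob2 (hU : UnitRS) (hMm : MmulS) (hMV : MVS) (hE1 : E1S) (hPc : PCZS) (hClp : ClpS)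
    (hC0 : Coeff0S) (hG0 : G0S) (hI1 : Inj1S) (hRk : RkS) (hFD : FDS) (hWW : WWfS)
    (hRF : RayFacS) (hMug : MugS) (hMco : McoS) (hCu : H61.CuspS) (hSf : SfzS) (hTr : Nr.TrezS)
    (hEvz : EvzS) (hEvr : EvrS) (hFcl : FclS) (hTsa : TsaS) (hI3 : Io3S) (hMfc : MfcS)
    (hCa : Ca5S) (hGlc : GlcS) (hFou : FouS) (hDti : DtiS) : Ob2S :=
  KO67.ob2 hU hMm hMV hE1 hPc hClp hC0 hG0 hI1 hRk hFD hWW hRF hMug hMco hCu hSf hTr hEvz
    (ev1 hEvr) hFcl hTsa hI3 hMfc hCa hGlc hFou hDti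

end Pool.Agent.B5.KoH25
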